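import Pool.Agent.W76.MO.Stmts

set_option autoImplicit false

namespace Pool.Agent.W596.MO

open Finset Filter Topology
open scoped Classical
open Pool.Agent.W76.MO Pool.Agent.W76.MO.Env

lemma delta_le (E : Env) : E.δ ≤ 1 / 100000 := by
  have h1 := E.hδ'
  have h2 := E.hτ'
  linarith

lemma sc_eq {i n : ℕ} (h1 : 2 ^ i < n) (h2 : n ≤ 2 ^ (i + 1)) : sc n = i := by
  unfold sc
  apply Nat.log_eq_of_pow_le_of_lt_pow
  · omega
  · omega

lemma hh_pos (δ : ℝ) (i : ℕ) : 0 < hh δ i := by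
  unfold hh; positivity

lemma hh_le {δ : ℝ} (hδ : δ ≤ 1 / 2) (i : ℕ) : (hh δ i : ℝ) ≤ (2 : ℝ) ^ ((1 / 2 - δ) * i) := by
  unfold hh
  push_cast
  rw [← Real.rpow_natCast]
  apply Real.rpow_le_rpow_of_exponent_le (by norm_num)
  apply Nat.floor_le
  have : 0 ≤ 1 / 2 - δ := by linarith
  positivity

lemma le_hh (δ : ℝ) (i : ℕ) : (2 : ℝ) ^ ((1 / 2 - δ) * i - 1) ≤ (hh δ i : ℝ) := by
  unfold hh
  push_cast
  rw [← Real.rpow_natCast]
  apply Real.rpow_le_rpow_of_exponent_le (by norm_num)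
  exact (Nat.sub_one_lt_floor _).le

lemma hh_dvd {δ : ℝ} (hδ : 0 < δ) (i : ℕ) : hh δ i ∣ 2 ^ i := by
  unfold hh
  apply pow_dvd_pow
  apply Nat.floor_le_of_le
  nlinarith [(Nat.cast_nonneg i : (0:ℝ) ≤ i)]

lemma nc_mul {δ : ℝ} (hδ : 0 < δ) (i : ℕ) : nc δ i * hh δ i = 2 ^ i := by
  unfold nc
  exact Nat.div_mul_cancel (hh_dvd hδ i)

lemma growth (k : ℕ) (C c : ℝ) (hc : 0 < c) :
    ∃ J : ℕ, ∀ j : ℕ, J ≤ j → C * (j : ℝ) ^ k ≤ (2 : ℝ) ^ (c * j) := by
  have hl : 0 < Real.log 2 := Real.log_pos (by norm_num)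
  have h := (isLittleO_pow_exp_pos_mul_atTop (k := k) (b := c * Real.log 2)
    (by positivity)).bound (show (0:ℝ) < 1 / (|C| + 1) by positivity)
  have h2 := (tendsto_natCast_atTop_atTop (R := ℝ)).eventually h
  obtain ⟨J, hJ⟩ := eventually_atTop.1 h2
  refine ⟨J, fun j hj => ?_⟩
  have h0 := hJ j hj
  rw [Real.norm_of_nonneg (by positivity), Real.norm_of_nonneg (by positivity)] at h0
  have e : Real.exp (c * Real.log 2 * j) = (2 : ℝ) ^ (c * j) := by
    rw [Real.rpow_def_of_pos (by norm_num)]; ring_nf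
  rw [e] at h0
  have h3 : (|C| + 1) * (j : ℝ) ^ k ≤ (2 : ℝ) ^ (c * j) := by
    rw [div_mul_eq_mul_div, one_mul, le_div_iff₀ (by positivity)] at h0
    linarith
  have h4 : C * (j : ℝ) ^ k ≤ (|C| + 1) * (j : ℝ) ^ k := by
    apply mul_le_mul_of_nonneg_right _ (by positivity)
    have := le_abs_self C
    linarith
  linarith

/-- counting elements of `isU` in an interval and a block -/
lemma cnt (E : Env) (i : ℕ) (hi : E.i₁ ≤ i) (a L : ℕ) :
    ((((Ioc a (a + L)).filter E.isU).filter (fun p => sc p = i ∧ 2 ≤ p)).card : ℝ) ≤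
      E.CU * ((L : ℝ) + (2 : ℝ) ^ (E.τ / 4 * i) + 1) / (i : ℝ) ^ 4 := by
  have hτ := E.hτ
  have hτ' := E.hτ'
  have hCU := E.hCU
  set c : ℕ := ⌈(2 : ℝ) ^ (E.τ / 4 * i)⌉₊ with hc
  have hc1 : (2 : ℝ) ^ (E.τ / 4 * i) ≤ c := Nat.le_ceil _
  have hc2 : (c : ℝ) ≤ (2 : ℝ) ^ (E.τ / 4 * i) + 1 := (Nat.ceil_lt_add_one (by positivity)).le
  have hle : (2 : ℝ) ^ (E.τ / 4 * i) ≤ (2 : ℝ) ^ i := by
    rw [← Real.rpow_natCast]
    apply Real.rpow_le_rpow_of_exponent_le (by norm_num)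
    nlinarith [(Nat.cast_nonneg i : (0:ℝ) ≤ i)]
  have hc3 : c ≤ 2 ^ i := by
    apply Nat.ceil_le.2
    push_cast
    exact hle
  set L' : ℕ := min (2 ^ i) (max L c) with hL'
  set a' : ℕ := max (2 ^ i) (min a (2 ^ (i + 1) - L')) with ha'
  have hp : 2 ^ (i + 1) = 2 * 2 ^ i := by ring
  have hL1 : L' ≤ 2 ^ i := min_le_left _ _
  have hL2 : c ≤ L' := by
    rw [hL']; exact le_min hc3 (le_max_right _ _)
  have hL3 : L' ≤ L + c := by
    rw [hL']
    omega
  have h1 : 2 ^ i ≤ a' := le_max_left _ _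
  have h2 : a' + L' ≤ 2 ^ (i + 1) := by omega
  have h3 := E.u_up i hi a' L' h1 h2 (le_trans hc1 (by exact_mod_cast hL2))
  have hsub : ((Ioc a (a + L)).filter E.isU).filter (fun p => sc p = i ∧ 2 ≤ p) ⊆
      (Ioc a' (a' + L')).filter E.isU := by
    intro p hp'
    simp only [mem_filter, mem_Ioc] at hp' ⊢
    obtain ⟨⟨⟨q1, q2⟩, q3⟩, q4, q5⟩ := hp'
    unfold sc at q4
    have q6 : 2 ^ i ≤ p - 1 := by
      rw [← q4]; exact Nat.pow_log_le_self 2 (by omega)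
    have q7 : p - 1 < 2 ^ (i + 1) := by
      rw [← q4]; exact Nat.lt_pow_succ_log_self (by norm_num) _
    refine ⟨⟨?_, ?_⟩, q3⟩
    · omega
    · omega
  have h4 := Finset.card_le_card hsub
  calc ((((Ioc a (a + L)).filter E.isU).filter (fun p => sc p = i ∧ 2 ≤ p)).card : ℝ)
      ≤ (((Ioc a' (a' + L')).filter E.isU).card : ℝ) := by exact_mod_cast h4
    _ ≤ E.CU * L' / (i : ℝ) ^ 4 := h3
    _ ≤ _ := by
      apply div_le_div_of_nonneg_right _ (by positivity)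
      apply mul_le_mul_of_nonneg_left _ (by linarith)
      have : (L' : ℝ) ≤ L + c := by exact_mod_cast hL3
      linarith


/-- pointwise bound for `gu` -/
lemma gu_le (E : Env) (hGB : E.GBounds) : ∃ J : ℕ, 10 ≤ J ∧ ∀ j : ℕ, J ≤ j → ∀ i : ℕ, j ≤ i →
    ∀ t p : ℕ, 1 ≤ t → 2 ^ i < t * p → (2 : ℝ) ^ (3 / 5 * (i : ℝ)) < p →
      E.gu j p ≤ 2 ^ 38 / E.cU * ((t : ℝ) / 2 ^ i) ^ (1 - E.δ / 2) / (i : ℝ) ^ 36 := by
  obtain ⟨J₁, hJ₁, hJ⟩ := hGB
  have hδ := E.hδ
  have hδ' := delta_le E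
  have hcU := E.hcU
  obtain ⟨J₂, hJ₂⟩ := growth 41 8 (E.δ / 2) (by positivity)
  refine ⟨J₁ + J₂ + 10, by omega, fun j hj i hi t p ht hXp hp => ?_⟩
  obtain ⟨g1, -⟩ := hJ j (by omega)
  have hg := hJ₂ j (by omega)
  have hj0 : (10 : ℝ) ≤ j := by exact_mod_cast (show 10 ≤ j by omega)
  have hi0 : (10 : ℝ) ≤ i := by exact_mod_cast (show 10 ≤ i by omega)
  have htp : (0 : ℝ) < t := by exact_mod_cast ht
  have hX : (0 : ℝ) < 2 ^ i := by positivity
  have hbase : (0 : ℝ) < (t : ℝ) / 2 ^ i := by positivity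
  have hrhs : 0 ≤ 2 ^ 38 / E.cU * ((t : ℝ) / 2 ^ i) ^ (1 - E.δ / 2) / (i : ℝ) ^ 36 := by
    positivity
  have hXp' : (2 : ℝ) ^ i < t * p := by exact_mod_cast hXp
  have hp0 : (0 : ℝ) < p := lt_trans (by positivity) hp
  -- general lower bound for `t / 2 ^ i`
  have key : ∀ m : ℕ, (p : ℝ) ≤ 2 ^ m →
      (2 : ℝ) ^ (-((1 - E.δ / 2) * m)) ≤ ((t : ℝ) / 2 ^ i) ^ (1 - E.δ / 2) := by
    intro m hm
    have e1 : (2 : ℝ) ^ (-((1 - E.δ / 2) * m)) = ((2 : ℝ) ^ (-(m : ℝ))) ^ (1 - E.δ / 2) := by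
      rw [← Real.rpow_mul (by norm_num)]; ring_nf
    rw [e1]
    apply Real.rpow_le_rpow (by positivity) _ (by linarith)
    rw [Real.rpow_neg (by norm_num), Real.rpow_natCast, le_div_iff₀ hX, inv_mul_le_iff₀ (by positivity)]
    nlinarith
  have hlog : ∀ m : ℕ, (p : ℝ) ≤ 2 ^ m → 3 / 5 * (i : ℝ) < m := by
    intro m hm
    have : (2 : ℝ) ^ (3 / 5 * (i : ℝ)) < (2 : ℝ) ^ (m : ℝ) := by
      rw [Real.rpow_natCast]; linarith
    exact (Real.rpow_lt_rpow_left_iff (by norm_num)).1 this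
  unfold Env.gu
  split_ifs with hU hpj hbad
  · -- `p ≤ 2 ^ j`
    have hpj' : (p : ℝ) ≤ 2 ^ j := by exact_mod_cast hpj
    have k1 := key j hpj'
    have k2 := hlog j hpj'
    have e2 : (2 : ℝ) ^ j = 2 * 2 ^ (j - 1) := by
      obtain ⟨j', rfl⟩ : ∃ j', j = j' + 1 := ⟨j - 1, by omega⟩
      rw [pow_succ]; simp; ring
    have hi2 : (i : ℝ) ^ 36 ≤ (2 * (j : ℝ)) ^ 36 := by
      apply pow_le_pow_left₀ (by positivity); linarith
    have hjp : (0 : ℝ) < j := by linarith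
    have e3 : (2 : ℝ) ^ (-((1 - E.δ / 2) * j)) = (2 : ℝ) ^ (E.δ / 2 * j) / 2 ^ j := by
      rw [← Real.rpow_natCast 2 j, ← Real.rpow_sub (by norm_num)]; ring_nf
    rw [e3] at k1
    calc 8 * (j : ℝ) / ((E.UB j).card : ℝ)
        ≤ 8 * (j : ℝ) / (E.cU / 2 * 2 ^ (j - 1) / (j : ℝ) ^ 4) := by
          apply div_le_div_of_nonneg_left (by positivity) (by positivity) g1
      _ = 32 * (j : ℝ) ^ 5 / (E.cU * 2 ^ j) := by
          rw [e2]; field_simp; ring
      _ ≤ 2 ^ 38 / E.cU * ((2 : ℝ) ^ (E.δ / 2 * j) / 2 ^ j) / (2 * (j : ℝ)) ^ 36 := by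
          rw [div_le_div_iff₀ (by positivity) (by positivity)]
          have e4 : 2 ^ 38 / E.cU * ((2 : ℝ) ^ (E.δ / 2 * j) / 2 ^ j) * (E.cU * 2 ^ j) =
            2 ^ 38 * (2 : ℝ) ^ (E.δ / 2 * j) := by field_simp
          rw [e4]
          have e5 : 32 * (j : ℝ) ^ 5 * (2 * (j : ℝ)) ^ 36 = 2 ^ 38 * (8 * (j : ℝ) ^ 41) := by ring
          rw [e5]
          apply mul_le_mul_of_nonneg_left hg (by positivity)
      _ ≤ 2 ^ 38 / E.cU * ((t : ℝ) / 2 ^ i) ^ (1 - E.δ / 2) / (i : ℝ) ^ 36 := by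
          apply div_le_div₀ (by positivity) _ (by positivity) hi2
          apply mul_le_mul_of_nonneg_left k1 (by positivity)
  · exact hrhs
  · -- good cell
    set i' := sc p with hi'
    have hp2 : 2 ^ j < p := by omega
    have hp3 : 2 ≤ p := by
      have : 1 ≤ 2 ^ j := Nat.one_le_two_pow
      omega
    have q6 : 2 ^ i' ≤ p - 1 := by
      rw [hi']; unfold sc; exact Nat.pow_log_le_self 2 (by omega)
    have q7 : p - 1 < 2 ^ (i' + 1) := by
      rw [hi']; unfold sc; exact Nat.lt_pow_succ_log_self (by norm_num) _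
    have q8 : (p : ℝ) ≤ 2 ^ (i' + 1) := by exact_mod_cast (show p ≤ 2 ^ (i' + 1) by omega)
    have k1 := key (i' + 1) q8
    have k2 := hlog (i' + 1) q8
    push_cast at k2
    have hi'1 : (i : ℝ) / 2 ≤ i' := by linarith
    have hi'0 : (0 : ℝ) < i' := by linarith
    have hkx : E.kx p ∈ range (nc E.δ i') := by
      rw [mem_range]
      unfold Env.kx
      rw [← hi']
      apply Nat.div_lt_of_lt_mul
      rw [mul_comm, nc_mul hδ]
      have : 2 ^ (i' + 1) = 2 * 2 ^ i' := by ring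
      omega
    have hcard : E.cU * hh E.δ i' / (i' : ℝ) ^ 4 ≤
        (((cell E.δ i' (E.kx p)).filter E.isU).card : ℝ) := by
      by_contra hcon
      apply hbad
      unfold Env.Bad
      rw [mem_filter]
      exact ⟨hkx, not_le.1 hcon⟩
    have hhp : (0 : ℝ) < hh E.δ i' := by exact_mod_cast hh_pos E.δ i'
    have e1 : (2 : ℝ) ^ (-(1 / 2 + E.δ / 2) * i') =
        (2 : ℝ) ^ (-((1 - E.δ / 2) * ((i' + 1 : ℕ) : ℝ))) * (2 : ℝ) ^ (1 - E.δ / 2) * 2 *
          (2 : ℝ) ^ ((1 / 2 - E.δ) * i' - 1) := by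
      have : (2 : ℝ) ^ (-((1 - E.δ / 2) * ((i' + 1 : ℕ) : ℝ))) * (2 : ℝ) ^ (1 - E.δ / 2) * 2 *
          (2 : ℝ) ^ ((1 / 2 - E.δ) * i' - 1) =
          (2 : ℝ) ^ (-((1 - E.δ / 2) * ((i' + 1 : ℕ) : ℝ))) * (2 : ℝ) ^ (1 - E.δ / 2) * (2 : ℝ) ^ (1 : ℝ) *
          (2 : ℝ) ^ ((1 / 2 - E.δ) * i' - 1) := by rw [Real.rpow_one]
      rw [this, ← Real.rpow_add (by norm_num), ← Real.rpow_add (by norm_num),
        ← Real.rpow_add (by norm_num)]
      congr 1
      push_cast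
      ring
    have e2 : (2 : ℝ) ^ (1 - E.δ / 2) ≤ 2 := by
      calc (2 : ℝ) ^ (1 - E.δ / 2) ≤ (2 : ℝ) ^ (1 : ℝ) :=
            Real.rpow_le_rpow_of_exponent_le (by norm_num) (by linarith)
        _ = 2 := Real.rpow_one 2
    have hw : E.w i' ≤ 4 * ((t : ℝ) / 2 ^ i) ^ (1 - E.δ / 2) * hh E.δ i' / (i' : ℝ) ^ 40 := by
      unfold Env.w
      apply div_le_div_of_nonneg_right _ (by positivity)
      rw [e1]
      have l1 := le_hh E.δ i'
      calc (2 : ℝ) ^ (-((1 - E.δ / 2) * ((i' + 1 : ℕ) : ℝ))) * (2 : ℝ) ^ (1 - E.δ / 2) * 2 *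
          (2 : ℝ) ^ ((1 / 2 - E.δ) * i' - 1)
          ≤ ((t : ℝ) / 2 ^ i) ^ (1 - E.δ / 2) * 2 * 2 * hh E.δ i' := by gcongr
        _ = _ := by ring
    have hpow : (i : ℝ) ^ 36 / 2 ^ 36 ≤ (i' : ℝ) ^ 36 := by
      rw [← div_pow]; exact pow_le_pow_left₀ (by positivity) hi'1 _
    calc E.w i' / (((cell E.δ i' (E.kx p)).filter E.isU).card : ℝ)
        ≤ E.w i' / (E.cU * hh E.δ i' / (i' : ℝ) ^ 4) := by
          apply div_le_div_of_nonneg_left _ (by positivity) hcard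
          unfold Env.w; positivity
      _ ≤ (4 * ((t : ℝ) / 2 ^ i) ^ (1 - E.δ / 2) * hh E.δ i' / (i' : ℝ) ^ 40) /
          (E.cU * hh E.δ i' / (i' : ℝ) ^ 4) := by
          apply div_le_div_of_nonneg_right hw (by positivity)
      _ = 4 / E.cU * ((t : ℝ) / 2 ^ i) ^ (1 - E.δ / 2) / (i' : ℝ) ^ 36 := by
          field_simp
      _ ≤ 4 / E.cU * ((t : ℝ) / 2 ^ i) ^ (1 - E.δ / 2) / ((i : ℝ) ^ 36 / 2 ^ 36) := by
          apply div_le_div_of_nonneg_left (by positivity) (by positivity) hpow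
      _ = 2 ^ 38 / E.cU * ((t : ℝ) / 2 ^ i) ^ (1 - E.δ / 2) / (i : ℝ) ^ 36 := by
          field_simp; norm_num
  · exact hrhs


/-- the inner sum over the primes -/
noncomputable def PS (E : Env) (i k t : ℕ) : Finset ℕ :=
  (range (2 ^ (i + 1) + 1)).filter (fun p : ℕ =>
    (2 : ℝ) ^ (3 / 5 * (i : ℝ)) < p ∧ t * p ∈ cell E.δ i k)

lemma St_le (E : Env) (hGB : E.GBounds) : ∃ J : ℕ, ∀ j : ℕ, J ≤ j → ∀ i : ℕ, j ≤ i →
    ∀ k : ℕ, k < nc E.δ i → ∀ t : ℕ, 2 ≤ t →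
      ∑ p ∈ PS E i k t, E.gu j p ≤
        2 ^ 44 * E.CU / E.cU * E.w i * (t : ℝ) ^ (-E.δ / 2) := by
  obtain ⟨J, hJ10, hJ⟩ := gu_le E hGB
  have hδ := E.hδ
  have hδ' := delta_le E
  have hτ := E.hτ
  have hτ' := E.hτ'
  have hcU := E.hcU
  have hCU := E.hCU
  refine ⟨J + 100 + 2 * E.i₁, fun j hj i hi k hk t ht => ?_⟩
  have hi100 : (100 : ℝ) ≤ i := by exact_mod_cast (show 100 ≤ i by omega)
  have hii₁ : (2 : ℝ) * E.i₁ ≤ i := by exact_mod_cast (show 2 * E.i₁ ≤ i by omega)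
  have ht0 : (0 : ℝ) < t := by exact_mod_cast (show 0 < t by omega)
  have hw0 : 0 ≤ E.w i := by unfold Env.w; positivity
  set h : ℕ := hh E.δ i with hh'
  set a : ℕ := 2 ^ i + k * h with ha
  set A : ℕ := a / t with hA
  set L : ℕ := h / t + 1 with hL
  have hcell : cell E.δ i k = Ioc a (a + h) := by
    unfold cell; rw [ha, ← hh']; congr 1; ring
  have hah : a + h ≤ 2 ^ (i + 1) := by
    have h1 : nc E.δ i * h = 2 ^ i := nc_mul hδ i
    have h2 : (k + 1) * h ≤ nc E.δ i * h := Nat.mul_le_mul_right _ hk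
    have h3 : (k + 1) * h = k * h + h := by ring
    have h4 : 2 ^ (i + 1) = 2 * 2 ^ i := by ring
    omega
  -- facts about elements of `PS`
  have hPS : ∀ p ∈ PS E i k t, 2 ^ i < t * p ∧ (2 : ℝ) ^ (3 / 5 * (i : ℝ)) < p ∧
      t * p ≤ 2 ^ (i + 1) ∧ p ∈ Ioc A (A + L) ∧ 2 ≤ p := by
    intro p hp
    unfold PS at hp
    rw [mem_filter, hcell, mem_Ioc] at hp
    obtain ⟨-, hp1, hp2, hp3⟩ := hp
    refine ⟨by omega, hp1, by omega, ?_, ?_⟩
    · rw [mem_Ioc]
      constructor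
      · rw [hA, Nat.div_lt_iff_lt_mul (by omega)]
        rw [mul_comm]; exact hp2
      · have e1 : a < t * (a / t + 1) := Nat.lt_mul_div_succ a (by omega)
        have e2 : h < t * (h / t + 1) := Nat.lt_mul_div_succ h (by omega)
        have e3 : t * p < t * (a / t + h / t + 2) := by
          calc t * p ≤ a + h := hp3
            _ < t * (a / t + 1) + t * (h / t + 1) := by omega
            _ = _ := by ring
        have e4 := Nat.lt_of_mul_lt_mul_left e3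
        omega
    · have : (1 : ℝ) < p := by
        refine lt_of_le_of_lt ?_ hp1
        apply Real.one_le_rpow (by norm_num) (by positivity)
      exact_mod_cast this
  set G : ℝ := 2 ^ 38 / E.cU * ((t : ℝ) / 2 ^ i) ^ (1 - E.δ / 2) / (i : ℝ) ^ 36 with hG
  have hG0 : 0 ≤ G := by positivity
  have hXt : 0 ≤ (h : ℝ) / t := by positivity
  -- the sum is at most `card * G`
  have hsum : ∑ p ∈ PS E i k t, E.gu j p ≤ (((PS E i k t).filter E.isU).card : ℝ) * G := by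
    rw [← nsmul_eq_mul, ← Finset.sum_const, Finset.sum_filter]
    apply Finset.sum_le_sum
    intro p hp
    obtain ⟨h1, h2, -⟩ := hPS p hp
    split_ifs with hU
    · exact hJ j (by omega) i hi t p (by omega) h1 h2
    · unfold Env.gu
      rw [if_neg]
      intro hc
      exact hU hc.1
  -- one block
  have hblock : ∀ e : ℕ, ((((PS E i k t).filter E.isU).filter (fun p => sc p = e)).card : ℝ) ≤
      32 * E.CU * ((h : ℝ) / t) / (i : ℝ) ^ 4 := by
    intro e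
    rcases (((PS E i k t).filter E.isU).filter (fun p => sc p = e)).eq_empty_or_nonempty with h0 | ⟨p, hp⟩
    · rw [h0]; simp; positivity
    rw [mem_filter, mem_filter] at hp
    obtain ⟨⟨hpS, -⟩, hpe⟩ := hp
    obtain ⟨p1, p2, p3, -, p5⟩ := hPS p hpS
    unfold sc at hpe
    have q6 : 2 ^ e ≤ p - 1 := by
      rw [← hpe]; exact Nat.pow_log_le_self 2 (by omega)
    have q7 : p - 1 < 2 ^ (e + 1) := by
      rw [← hpe]; exact Nat.lt_pow_succ_log_self (by norm_num) _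
    have q8 : (p : ℝ) ≤ 2 ^ (e + 1) := by exact_mod_cast (show p ≤ 2 ^ (e + 1) by omega)
    have q9 : 3 / 5 * (i : ℝ) < ((e + 1 : ℕ) : ℝ) := by
      have : (2 : ℝ) ^ (3 / 5 * (i : ℝ)) < (2 : ℝ) ^ (((e + 1 : ℕ) : ℝ)) := by
        rw [Real.rpow_natCast]; linarith
      exact (Real.rpow_lt_rpow_left_iff (by norm_num)).1 this
    push_cast at q9
    have hei : (i : ℝ) / 2 ≤ e := by linarith
    have hei₁ : E.i₁ ≤ e := by
      have : (E.i₁ : ℝ) ≤ e := by linarith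
      exact_mod_cast this
    have hple : 2 * p ≤ 2 ^ (i + 1) := le_trans (Nat.mul_le_mul_right _ ht) p3
    have hel : e ≤ i := by
      have h1 : 2 ^ e < 2 ^ (i + 1) := by omega
      have := (Nat.pow_lt_pow_iff_right (by norm_num : 1 < 2)).1 h1
      omega
    have hel' : (e : ℝ) ≤ i := by exact_mod_cast hel
    have hc := cnt E e hei₁ A L
    have hsub : ((PS E i k t).filter E.isU).filter (fun p => sc p = e) ⊆
        ((Ioc A (A + L)).filter E.isU).filter (fun p => sc p = e ∧ 2 ≤ p) := by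
      intro x hx
      simp only [mem_filter] at hx ⊢
      obtain ⟨-, -, -, x4, x5⟩ := hPS x hx.1.1
      exact ⟨⟨x4, hx.1.2⟩, hx.2, x5⟩
    -- `t` is small
    have htsm : (t : ℝ) ≤ (2 : ℝ) ^ (2 / 5 * (i : ℝ) + 1) := by
      have h1 : (t : ℝ) * p ≤ 2 ^ (i + 1) := by exact_mod_cast p3
      have h2 : (2 : ℝ) ^ (i + 1) = (2 : ℝ) ^ (2 / 5 * (i : ℝ) + 1) * (2 : ℝ) ^ (3 / 5 * (i : ℝ)) := by
        rw [← Real.rpow_add (by norm_num), ← Real.rpow_natCast]
        congr 1; push_cast; ring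
      rw [h2] at h1
      by_contra hcon
      push Not at hcon
      have h3 : (2 : ℝ) ^ (2 / 5 * (i : ℝ) + 1) * (2 : ℝ) ^ (3 / 5 * (i : ℝ)) < t * p :=
        mul_lt_mul'' hcon p2 (by positivity) (by positivity)
      linarith
    have hht : (2 : ℝ) ^ ((1 / 10 - E.δ) * i - 2) ≤ (h : ℝ) / t := by
      rw [le_div_iff₀ ht0]
      calc (2 : ℝ) ^ ((1 / 10 - E.δ) * i - 2) * t
          ≤ (2 : ℝ) ^ ((1 / 10 - E.δ) * i - 2) * (2 : ℝ) ^ (2 / 5 * (i : ℝ) + 1) := by gcongr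
        _ = (2 : ℝ) ^ ((1 / 2 - E.δ) * i - 1) := by
            rw [← Real.rpow_add (by norm_num)]; congr 1; ring
        _ ≤ h := le_hh E.δ i
    have hsm : (2 : ℝ) ^ (E.τ / 4 * e) + 2 ≤ (h : ℝ) / t := by
      have h1 : (1 : ℝ) ≤ (2 : ℝ) ^ (E.τ / 4 * i) :=
        Real.one_le_rpow (by norm_num) (by positivity)
      have h2 : (2 : ℝ) ^ (E.τ / 4 * e) ≤ (2 : ℝ) ^ (E.τ / 4 * i) := by
        apply Real.rpow_le_rpow_of_exponent_le (by norm_num)
        gcongr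
      calc (2 : ℝ) ^ (E.τ / 4 * e) + 2 ≤ 4 * (2 : ℝ) ^ (E.τ / 4 * i) := by linarith
        _ = (2 : ℝ) ^ (2 : ℝ) * (2 : ℝ) ^ (E.τ / 4 * i) := by norm_num
        _ = (2 : ℝ) ^ (2 + E.τ / 4 * i) := by rw [← Real.rpow_add (by norm_num)]
        _ ≤ (2 : ℝ) ^ ((1 / 10 - E.δ) * i - 2) := by
            apply Real.rpow_le_rpow_of_exponent_le (by norm_num)
            nlinarith
        _ ≤ _ := hht
    have hLr : (L : ℝ) ≤ (h : ℝ) / t + 1 := by
      rw [hL]; push_cast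
      have := @Nat.cast_div_le ℝ _ _ _ h t
      linarith
    have he4 : (i : ℝ) ^ 4 / 16 ≤ (e : ℝ) ^ 4 := by
      have : (i : ℝ) ^ 4 / 16 = ((i : ℝ) / 2) ^ 4 := by ring
      rw [this]
      exact pow_le_pow_left₀ (by positivity) hei _
    calc ((((PS E i k t).filter E.isU).filter (fun p => sc p = e)).card : ℝ)
        ≤ ((((Ioc A (A + L)).filter E.isU).filter (fun p => sc p = e ∧ 2 ≤ p)).card : ℝ) := by
          exact_mod_cast Finset.card_le_card hsub
      _ ≤ E.CU * ((L : ℝ) + (2 : ℝ) ^ (E.τ / 4 * e) + 1) / (e : ℝ) ^ 4 := hc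
      _ ≤ E.CU * (2 * ((h : ℝ) / t)) / ((i : ℝ) ^ 4 / 16) := by
          apply div_le_div₀ (by positivity) _ (by positivity) he4
          apply mul_le_mul_of_nonneg_left _ (by linarith)
          linarith
      _ = 32 * E.CU * ((h : ℝ) / t) / (i : ℝ) ^ 4 := by
          field_simp; ring
  -- at most two blocks
  set q : ℕ := 2 ^ i / t with hq
  have hcard : (((PS E i k t).filter E.isU).card : ℝ) ≤
      64 * E.CU * ((h : ℝ) / t) / (i : ℝ) ^ 4 := by
    have hsub : (PS E i k t).filter E.isU ⊆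
        ((PS E i k t).filter E.isU).filter (fun p => sc p = Nat.log 2 q) ∪
        ((PS E i k t).filter E.isU).filter (fun p => sc p = Nat.log 2 q + 1) := by
      intro p hp
      have hpS := (mem_filter.1 hp).1
      obtain ⟨p1, p2, p3, -, p5⟩ := hPS p hpS
      have r1 : q < p := by
        rw [hq, Nat.div_lt_iff_lt_mul (by omega), mul_comm]; exact p1
      have r2 : 2 ^ i < t * (q + 1) := Nat.lt_mul_div_succ _ (by omega)
      have r3 : p < 2 * (q + 1) := by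
        have : t * p < t * (2 * (q + 1)) := by
          calc t * p ≤ 2 ^ (i + 1) := p3
            _ = 2 * 2 ^ i := by ring
            _ < 2 * (t * (q + 1)) := by omega
            _ = _ := by ring
        exact Nat.lt_of_mul_lt_mul_left this
      have hq0 : q ≠ 0 := by
        intro h0; rw [h0] at r3; omega
      have s1 : Nat.log 2 q ≤ sc p := Nat.log_mono_right (by omega)
      have s2 : sc p ≤ Nat.log 2 q + 1 := by
        rw [← Nat.log_mul_base (by norm_num) hq0]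
        exact Nat.log_mono_right (by omega)
      refine mem_union.2 ?_
      rcases Nat.lt_or_ge (Nat.log 2 q) (sc p) with h | h
      · right; exact mem_filter.2 ⟨hp, by omega⟩
      · left; exact mem_filter.2 ⟨hp, by omega⟩
    have h1 := Finset.card_le_card hsub
    have h2 := le_trans h1 (Finset.card_union_le _ _)
    have h3 : (((PS E i k t).filter E.isU).card : ℝ) ≤
        ((((PS E i k t).filter E.isU).filter (fun p => sc p = Nat.log 2 q)).card : ℝ) +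
        ((((PS E i k t).filter E.isU).filter (fun p => sc p = Nat.log 2 q + 1)).card : ℝ) := by
      exact_mod_cast h2
    have h4 := hblock (Nat.log 2 q)
    have h5 := hblock (Nat.log 2 q + 1)
    calc (((PS E i k t).filter E.isU).card : ℝ) ≤ _ := h3
      _ ≤ 32 * E.CU * ((h : ℝ) / t) / (i : ℝ) ^ 4 + 32 * E.CU * ((h : ℝ) / t) / (i : ℝ) ^ 4 := by
          linarith
      _ = _ := by ring
  have hfin : (h : ℝ) / t * ((t : ℝ) / 2 ^ i) ^ (1 - E.δ / 2) ≤
      (2 : ℝ) ^ (-(1 / 2 + E.δ / 2) * i) * (t : ℝ) ^ (-E.δ / 2) := by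
    have h1 := hh_le (show E.δ ≤ 1 / 2 by linarith) i
    rw [Real.div_rpow ht0.le (by positivity)]
    have e1 : (t : ℝ) ^ (1 - E.δ / 2) = t * (t : ℝ) ^ (-E.δ / 2) := by
      rw [show (1 - E.δ / 2) = 1 + (-E.δ / 2) by ring, Real.rpow_add ht0, Real.rpow_one]
    have e2 : ((2 : ℝ) ^ i) ^ (1 - E.δ / 2) = (2 : ℝ) ^ ((1 - E.δ / 2) * i) := by
      rw [← Real.rpow_natCast, ← Real.rpow_mul (by norm_num)]; ring_nf
    have e3 : (2 : ℝ) ^ (-(1 / 2 + E.δ / 2) * i) =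
        (2 : ℝ) ^ ((1 / 2 - E.δ) * i) / (2 : ℝ) ^ ((1 - E.δ / 2) * i) := by
      rw [← Real.rpow_sub (by norm_num)]; congr 1; ring
    rw [e1, e2, e3]
    have e4 : (h : ℝ) / t * (t * (t : ℝ) ^ (-E.δ / 2) / (2 : ℝ) ^ ((1 - E.δ / 2) * i)) =
        (h : ℝ) / (2 : ℝ) ^ ((1 - E.δ / 2) * i) * (t : ℝ) ^ (-E.δ / 2) := by
      field_simp
    rw [e4]
    apply mul_le_mul_of_nonneg_right _ (by positivity)
    exact div_le_div_of_nonneg_right h1 (by positivity)
  calc ∑ p ∈ PS E i k t, E.gu j p ≤ (((PS E i k t).filter E.isU).card : ℝ) * G := hsum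
    _ ≤ (64 * E.CU * ((h : ℝ) / t) / (i : ℝ) ^ 4) * G := by gcongr
    _ = 2 ^ 44 * E.CU / E.cU * ((h : ℝ) / t * ((t : ℝ) / 2 ^ i) ^ (1 - E.δ / 2)) / (i : ℝ) ^ 40 := by
        rw [hG]; field_simp; ring
    _ ≤ 2 ^ 44 * E.CU / E.cU * ((2 : ℝ) ^ (-(1 / 2 + E.δ / 2) * i) * (t : ℝ) ^ (-E.δ / 2)) /
        (i : ℝ) ^ 40 := by gcongr
    _ = 2 ^ 44 * E.CU / E.cU * E.w i * (t : ℝ) ^ (-E.δ / 2) := by
        unfold Env.w; ring


lemma sum_one_le (E : Env) (j i k : ℕ) (hji : j ≤ i) (hk : k < nc E.δ i) :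
    ∑ p ∈ PS E i k 1, E.gu j p ≤ (if k ∈ E.Bad i then 0 else E.w i) := by
  have hδ := E.hδ
  have hw0 : 0 ≤ E.w i := by unfold Env.w; positivity
  have hhp := hh_pos E.δ i
  have hval : ∀ p ∈ PS E i k 1, E.gu j p ≤
      (if k ∈ E.Bad i then 0 else
        if p ∈ (cell E.δ i k).filter E.isU then
          E.w i / (((cell E.δ i k).filter E.isU).card : ℝ) else 0) := by
    intro p hp
    unfold PS at hp
    rw [mem_filter, one_mul] at hp
    obtain ⟨-, -, hpc⟩ := hp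
    have hpc' := hpc
    unfold cell at hpc'
    rw [mem_Ioc] at hpc'
    obtain ⟨c1, c2⟩ := hpc'
    have h1 : nc E.δ i * hh E.δ i = 2 ^ i := nc_mul hδ i
    have h2 : (k + 1) * hh E.δ i ≤ nc E.δ i * hh E.δ i := Nat.mul_le_mul_right _ hk
    have h4 : 2 ^ (i + 1) = 2 * 2 ^ i := by ring
    have hsc : sc p = i := sc_eq (by omega) (by omega)
    have hkx : E.kx p = k := by
      unfold Env.kx
      rw [hsc]
      apply Nat.div_eq_of_lt_le
      · omega
      · omega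
    have hpj : ¬ p ≤ 2 ^ j := by
      have : 2 ^ j ≤ 2 ^ i := Nat.pow_le_pow_right (by norm_num) hji
      omega
    unfold Env.gu
    rw [hsc, hkx]
    by_cases hU : E.U j p
    · rw [if_pos hU, if_neg hpj]
      by_cases hb : k ∈ E.Bad i
      · rw [if_pos hb, if_pos hb]
      · rw [if_neg hb, if_neg hb, if_pos]
        exact mem_filter.2 ⟨hpc, hU.1⟩
    · rw [if_neg hU]
      split_ifs
      · exact le_rfl
      · positivity
      · exact le_rfl
  refine le_trans (Finset.sum_le_sum hval) ?_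
  by_cases hb : k ∈ E.Bad i
  · simp [hb]
  · simp only [hb, if_false]
    rw [← Finset.sum_filter]
    have hsub : (PS E i k 1).filter (fun p => p ∈ (cell E.δ i k).filter E.isU) ⊆
        (cell E.δ i k).filter E.isU := by
      intro x hx; exact (mem_filter.1 hx).2
    rw [Finset.sum_const, nsmul_eq_mul]
    have hc : (((PS E i k 1).filter (fun p => p ∈ (cell E.δ i k).filter E.isU)).card : ℝ) ≤
        (((cell E.δ i k).filter E.isU).card : ℝ) := by exact_mod_cast Finset.card_le_card hsub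
    rcases (Nat.cast_nonneg ((cell E.δ i k).filter E.isU).card : (0:ℝ) ≤ _).eq_or_lt with h0 | h0
    · rw [← h0]; simpa using hw0
    · calc _ ≤ (((cell E.δ i k).filter E.isU).card : ℝ) *
            (E.w i / (((cell E.δ i k).filter E.isU).card : ℝ)) := by gcongr
        _ = E.w i := by field_simp

theorem upart : Pool.Agent.W76.MO.T_UP := by
  intro E hGB hES
  have hcU := E.hcU
  have hCU := E.hCU
  set C₀ : ℝ := 2 ^ 44 * E.CU / E.cU with hC₀
  have hC₀pos : 0 < C₀ := by positivity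
  obtain ⟨R₀, hR₀⟩ := hES (1 / (16 * C₀)) (by positivity)
  obtain ⟨J₁, hJ₁⟩ := St_le E hGB
  obtain ⟨J₀, hJ₀1, hJ₀⟩ := hGB
  refine ⟨R₀, fun R hR => ?_⟩
  obtain ⟨J₂, hJ₂⟩ := hR₀ R hR
  refine ⟨J₀ + J₁ + J₂, fun j hj i hji k hk => ?_⟩
  obtain ⟨-, hgu, hgh, -⟩ := hJ₀ j (by omega)
  have hES2 := hJ₂ j (by omega)
  have hw0 : 0 ≤ E.w i := by unfold Env.w; positivity
  have hE2 : ∀ t : ℕ, 0 ≤ E.E2 j t := by
    intro t
    unfold Env.E2
    apply Finset.prod_nonneg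
    intro p _
    have h1 := hgu p
    have h2 := hgh p
    have : 0 ≤ E.g j p := by unfold Env.g; linarith
    positivity
  have hE2' : ∀ t : ℕ, 0 ≤ E.E2 j t / (t : ℝ) := fun t => div_nonneg (hE2 t) (Nat.cast_nonneg t)
  set T : Finset ℕ := (Icc 2 (2 ^ (i + 1))).filter (fun t => Squarefree t ∧ Rough R t) with hT
  -- the double sum
  have hmain : ∑ n ∈ E.cs R i k,
      ∑ p ∈ n.primeFactors.filter (fun p : ℕ => (2 : ℝ) ^ (3 / 5 * (i : ℝ)) < p),
        E.gu j p * (E.E2 j (n / p) / ((n / p : ℕ) : ℝ)) ≤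
      ∑ t ∈ insert 1 T, ∑ p ∈ PS E i k t, E.gu j p * (E.E2 j t / (t : ℝ)) := by
    rw [Finset.sum_sigma', Finset.sum_sigma']
    set S1 := (E.cs R i k).sigma (fun n : ℕ => n.primeFactors.filter
      (fun p : ℕ => (2 : ℝ) ^ (3 / 5 * (i : ℝ)) < p)) with hS1
    have hinj : Set.InjOn (fun x : (_ : ℕ) × ℕ => (⟨x.1 / x.2, x.2⟩ : (_ : ℕ) × ℕ)) S1 := by
      rintro ⟨n, p⟩ hx ⟨n', p'⟩ hy hxy
      rw [Finset.mem_coe, hS1, mem_sigma, mem_filter] at hx hy
      simp only [Sigma.mk.injEq, heq_eq_eq] at hxy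
      obtain ⟨h1, h2⟩ := hxy
      subst h2
      have d1 := Nat.dvd_of_mem_primeFactors hx.2.1
      have d2 := Nat.dvd_of_mem_primeFactors hy.2.1
      have : n = n' := by
        have := congrArg (fun z => z * p) h1
        rwa [Nat.div_mul_cancel d1, Nat.div_mul_cancel d2] at this
      rw [this]
    have himg : ∑ x ∈ S1, E.gu j x.2 * (E.E2 j (x.1 / x.2) / ((x.1 / x.2 : ℕ) : ℝ)) =
        ∑ y ∈ S1.image (fun x : (_ : ℕ) × ℕ => (⟨x.1 / x.2, x.2⟩ : (_ : ℕ) × ℕ)),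
          E.gu j y.2 * (E.E2 j y.1 / (y.1 : ℝ)) := by
      rw [Finset.sum_image hinj]
    rw [himg]
    apply Finset.sum_le_sum_of_subset_of_nonneg
    · intro y hy
      rw [mem_image] at hy
      obtain ⟨⟨n, p⟩, hx, rfl⟩ := hy
      rw [hS1, mem_sigma, mem_filter] at hx
      obtain ⟨hn, hp, hp2⟩ := hx
      simp only at hn hp hp2 ⊢
      unfold Env.cs at hn
      rw [mem_filter] at hn
      obtain ⟨hnc, hsq, hro⟩ := hn
      have hpp := Nat.prime_of_mem_primeFactors hp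
      have hpd := Nat.dvd_of_mem_primeFactors hp
      have hmul : n / p * p = n := Nat.div_mul_cancel hpd
      have hnc' := hnc
      unfold cell at hnc'
      rw [mem_Ioc] at hnc'
      have h1 : nc E.δ i * hh E.δ i = 2 ^ i := nc_mul E.hδ i
      have h2 : (k + 1) * hh E.δ i ≤ nc E.δ i * hh E.δ i := Nat.mul_le_mul_right _ hk
      have h4 : 2 ^ (i + 1) = 2 * 2 ^ i := by ring
      have hn2 : n ≤ 2 ^ (i + 1) := by omega
      have hnpos : 0 < n := by omega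
      have htpos : 0 < n / p := by
        rcases Nat.eq_zero_or_pos (n / p) with h0 | h0
        · rw [h0] at hmul; omega
        · exact h0
      have htd : n / p ∣ n := Dvd.intro _ hmul
      rw [mem_sigma]
      refine ⟨?_, ?_⟩
      · simp only
        rw [mem_insert]
        by_cases h1' : n / p = 1
        · left; exact h1'
        · right
          rw [hT, mem_filter, mem_Icc]
          refine ⟨⟨by omega, le_trans (Nat.div_le_self _ _) hn2⟩, hsq.squarefree_of_dvd htd, ?_⟩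
          intro r hr hrd
          exact hro r hr (dvd_trans hrd htd)
      · simp only
        unfold PS
        rw [mem_filter, hmul, mem_range]
        exact ⟨by have := Nat.le_of_dvd hnpos hpd; omega, hp2, hnc⟩
    · rintro ⟨t, p⟩ _ _
      exact mul_nonneg (hgu p) (hE2' t)
  have hstep : ∀ t : ℕ, ∑ p ∈ PS E i k t, E.gu j p * (E.E2 j t / (t : ℝ)) =
      (E.E2 j t / (t : ℝ)) * ∑ p ∈ PS E i k t, E.gu j p := by
    intro t
    rw [Finset.mul_sum]
    apply Finset.sum_congr rfl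
    intro p _
    ring
  have h1T : (1 : ℕ) ∉ T := by
    rw [hT, mem_filter, mem_Icc]; omega
  rw [Finset.sum_insert h1T] at hmain
  simp only [hstep] at hmain
  have hE21 : E.E2 j 1 / ((1 : ℕ) : ℝ) = 1 := by
    unfold Env.E2; simp
  rw [hE21, one_mul] at hmain
  have hone := sum_one_le E j i k hji hk
  have hrest : ∑ t ∈ T, (E.E2 j t / (t : ℝ)) * ∑ p ∈ PS E i k t, E.gu j p ≤ E.w i / 16 := by
    calc ∑ t ∈ T, (E.E2 j t / (t : ℝ)) * ∑ p ∈ PS E i k t, E.gu j p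
        ≤ ∑ t ∈ T, (E.E2 j t / (t : ℝ)) * (C₀ * E.w i * (t : ℝ) ^ (-E.δ / 2)) := by
          apply Finset.sum_le_sum
          intro t ht
          rw [hT, mem_filter, mem_Icc] at ht
          apply mul_le_mul_of_nonneg_left _ (hE2' t)
          exact hJ₁ j (by omega) i hji k hk t ht.1.1
      _ = C₀ * E.w i * ∑ t ∈ T, E.E2 j t / t * (t : ℝ) ^ (-E.δ / 2) := by
          rw [Finset.mul_sum]
          apply Finset.sum_congr rfl
          intro t _
          ring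
      _ ≤ C₀ * E.w i * (1 / (16 * C₀)) := by
          apply mul_le_mul_of_nonneg_left (hES2 _) (by positivity)
      _ = E.w i / 16 := by
          field_simp
  linarith

end Pool.Agent.W596.MO
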